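import Pool.Agent.Helper99.RG.M_Rg
import Pool.Agent.Helper22.RG.M_R2
import Pool.Agent.Helper17.RG.M_R3
import Pool.Agent.Helper65.CL.StB

/-!
# Project RG (MP_65faa7): the energy regularity in the form `Pool.CL.StReg`
The modules R2, R3, Rg are repeated here for a fixed `d` with `EnvC`.
-/

set_option autoImplicit false
set_option linter.unusedSectionVars false

open scoped BigOperators ENNReal
open MeasureTheory
open Pool.LE Pool.NL

namespace Pool.RG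

def SR2at (d : ℕ) : Prop := ∀ v : Zd d → ℝ, FS v →
  Summable (fun x => |cv (gS d (pH d)) v x|) ∧
  En v ≤ ENNReal.ofReal (8 * d * (∑' x : Zd d, v x * cv (gS d (pH d)) v x -
    pH d * ∑' x : Zd d, ∑ y ∈ nb x, cv (gS d (pH d)) v x * cv (gS d (pH d)) v y))

def SR3at (d : ℕ) : Prop := ∃ C : ℝ, 0 < C ∧ ∀ n : ℕ, 1 ≤ n →
  (∀ b ∈ Bn d n, Summable fun x : Zd d => |gT (ES (Bn d n)) (pH d) b x - gS d (pH d) (x - b)|) ∧
  ∑ b ∈ Bn d n, ∑' x : Zd d, |gT (ES (Bn d n)) (pH d) b x - gS d (pH d) (x - b)| ≤ C * (n : ℝ) ^ (d - 1)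

def SR5at (d : ℕ) : Prop := ∀ n : ℕ, 1 ≤ n →
  (∀ x y : Zd d, x ∈ Bn d n → y ∉ Bn d n → gT (ES (Bn d n)) (pH d) x y = 0) ∧
  ∃ H : Zd d → Zd d → ℝ,
    (∀ u ∈ Bn d n, ∀ v ∈ Bn d n,
      ∑ z ∈ Bn d n, cp (ES (Bn d n)) (pH d) u z * H z v = if u = v then 1 else 0) ∧
    (∀ u ∈ Bn d n, ∀ v ∈ Bn d n,
      ∑ z ∈ Bn d n, H u z * cp (ES (Bn d n)) (pH d) z v = if u = v then 1 else 0) ∧
    (∀ u ∈ Bn d n, ∀ v ∈ Bn d n, H u v = H v u) ∧
    ∀ (u : Zd d → ℝ) (a : ℝ), (∀ x ∈ Bn d n, |u x| ≤ a) → ∃ v : Zd d → ℝ,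
      (∀ x, x ∉ Bn d n → v x = 0) ∧ (∀ x, |v x| ≤ 2 * a) ∧
      (∀ x ∈ Bn d n, u x = ∑ y ∈ Bn d n, gT (ES (Bn d n)) (pH d) x y * v y) ∧
      (∀ x ∈ Bn d n, ∑ y ∈ Bn d n, H x y * u y = v x - pH d * ∑ y ∈ nb x, ext (Bn d n) u y)

def StRgat (d : ℕ) : Prop := ∃ C : ℝ, 0 < C ∧ ∀ n : ℕ, 1 ≤ n →
  ∀ (ψ : Zd d → ℝ) (W : Finset (Zd d) → ℝ) (c a : ℝ), (∀ x, 0 ≤ ψ x ∧ ψ x ≤ 1) →
  (∀ S, 0 ≤ W S ∧ W S ≤ c) →
  (∀ x ∈ Bn d n, |uW (ES (Bn d n)) (pH d) (Bn d n) W ψ x| ≤ a) → ∀ z : Zd d,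
    ∑ x ∈ Bn d n, (if x + z ∈ Bn d n then
      (uW (ES (Bn d n)) (pH d) (Bn d n) W ψ (x + z) - uW (ES (Bn d n)) (pH d) (Bn d n) W ψ x) ^ 2
      else 0) ≤
    C * (∑ i, |(z i : ℝ)|) ^ 2 *
      (c * ∑ x ∈ Bn d n, ψ x * uW (ES (Bn d n)) (pH d) (Bn d n) W ψ x + a ^ 2 * (n : ℝ) ^ (d - 1))

theorem g_factsE {d : ℕ} {C₁ B c₀ CL : ℝ} (hE : Pool.CL.EnvC d C₁ B c₀ CL) :
    (∀ x, gS d (pH d) (-x) = gS d (pH d) x) ∧ (Summable fun x => |gS d (pH d) x|) ∧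
    ∑' x, |gS d (pH d) x| ≤ 2 := by
  classical
  have hQ1 : ∀ x : Zd d, 1 ≤ Qw x := by
    intro x
    have := fz_sq_nonneg x
    unfold Qw
    linarith
  have hle : ∀ (f : Zd d → ℝ) (x : Zd d), |f x| ≤ Qw x * |f x| := fun f x =>
    le_mul_of_one_le_left (abs_nonneg _) (hQ1 x)
  have sg : Summable fun x => |gS d (pH d) x| :=
    Summable.of_nonneg_of_le (fun _ => abs_nonneg _) (hle _) hE.gsum
  have sh : Summable fun x => |hS d (pH d) x| :=
    Summable.of_nonneg_of_le (fun _ => abs_nonneg _) (hle _) hE.hsum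
  have th : ∑' x, |hS d (pH d) x| ≤ 1 / 200 :=
    (sh.tsum_le_tsum (hle _) hE.hsum).trans hE.hle
  have s0 : HasSum (fun x : Zd d => if x = 0 then (1 : ℝ) else 0) 1 := hasSum_ite_eq 0 1
  refine ⟨fz_neg hE.gsym, sg, ?_⟩
  calc ∑' x, |gS d (pH d) x| ≤ ∑' x, (|hS d (pH d) x| + if x = 0 then (1 : ℝ) else 0) := by
        refine sg.tsum_le_tsum (fun x => ?_) (sh.add s0.summable)
        rw [hE.gdl]
        unfold dl
        refine (abs_add_le _ _).trans (add_le_add le_rfl ?_)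
        split_ifs <;> simp
    _ = ∑' x, |hS d (pH d) x| + 1 := by rw [sh.tsum_add s0.summable, s0.tsum_eq]
    _ ≤ 2 := by linarith

section
open R2M

theorem hR2at {d : ℕ} {C₁ B c₀ CL : ℝ} (hE : Pool.CL.EnvC d C₁ B c₀ CL) (hFTb : StFTb)
    (hFTadd : StFTadd) (hCv : StCv) (hCvFT : StCvFT)
    (hJf : StJf) (hInv : StInv) (hSec : StSec) (hDh : StDh) (hAE : StAE) : SR2at d := by
  intro v hFS
  obtain ⟨F, hv⟩ := hFS
  have hd0 : 0 < d := by have := hE.env.hd; omega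
  have hp0 : 0 < pH d := hE.env.p0
  have hcr := hE.crit
  have hhS := hE.hsum
  have hhn := hE.hle
  have hhsym := hE.hsym
  have hgdl := hE.gdl
  have hgS := hE.gsum
  have hgsym := hE.gsym
  obtain ⟨hJS, hJsym, hJ⟩ := hJf d
  set g : Zd d → ℝ := gS d (pH d) with hg
  have eg : EvenF g := ImpFM.even_of_sym hgsym
  have eJ : EvenF (Jf d) := ImpFM.even_of_sym hJsym
  have k0 : Fin d → ℝ := fun _ => 0
  have sg : Summable g := (hFTb d g hgS k0).1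
  obtain ⟨hG1, -, hG2, -, -⟩ := hCv d (Jf d) g hJS hgS
  have eG := hG2 eJ eg
  have sG : Summable (cv (Jf d) g) := (hFTb d _ hG1 k0).1
  obtain ⟨hH1, -, hH2, -, -⟩ := hCv d g (cv (Jf d) g) hgS hG1
  have eH := hH2 eg eG
  have q1 := Q1 hv g
  have q2 := Q2 hv sg sG eG eH
  refine ⟨?_, ?_⟩
  · have : (fun x => |cv g v x|) = fun x => |∑ z ∈ F, v z * g (x - z)| := by
      funext x
      rw [cv_fs hv]
    rw [this]
    exact (summable_sum fun z _ => (summable_shift sg z).mul_left (v z)).abs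
  -- the kernel
  have haddp := fun k => hFTadd d g (cv g (cv (Jf d) g)) hgS hH1 k
  have hcH : SumQ (fun x => (-pH d) * cv g (cv (Jf d) g) x) :=
    ((hFTadd d (cv g (cv (Jf d) g)) (cv g (cv (Jf d) g)) hH1 hH1 k0).2.2.2.2 (-pH d)).1
  set a1 : Zd d → ℝ := fun x => g x + (-pH d) * cv g (cv (Jf d) g) x with ha1
  have sQa : SumQ a1 := (hFTadd d g _ hgS hcH k0).1
  have sa : Summable a1 := (hFTb d _ sQa k0).1
  have ea : EvenF a1 := fun x => by
    simp only [ha1]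
    rw [eg x, eH x]
  have hQa : QF F v a1 = ∑' x : Zd d, v x * cv g v x - pH d * ∑' x : Zd d, ∑ y ∈ nb x, cv g v x * cv g v y := by
    rw [q1, q2]
    unfold QF
    rw [Finset.mul_sum, ← Finset.sum_sub_distrib]
    refine Finset.sum_congr rfl fun x _ => ?_
    rw [Finset.mul_sum, ← Finset.sum_sub_distrib]
    refine Finset.sum_congr rfl fun z _ => ?_
    simp only [ha1]
    ring
  have hFa : ∀ k, FT a1 k = FT g k * (1 - 2 * d * pH d * Dh k * FT g k) := by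
    intro k
    have b1 := (hFTadd d g _ hgS hcH k).2.1
    have b2 := ((hFTadd d (cv g (cv (Jf d) g)) (cv g (cv (Jf d) g)) hH1 hH1 k).2.2.2.2 (-pH d)).2.1
    have b3 := (hCvFT d g (cv (Jf d) g) hgS hG1 eg eG k).1
    have b4 := (hCvFT d (Jf d) g hJS hgS eJ eg k).1
    have b5 := (hJ k).1
    rw [ha1, b1, b2, b3, b4, b5]
    ring
  have hFg : ∀ k, FT g k = 1 + FT (hS d (pH d)) k := by
    intro k
    have b1 := (hFTadd d (hS d (pH d)) ImpFM.un hhS (ImpFM.sumQ_un d) k).2.1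
    rw [ImpFM.FT_un] at b1
    rw [hgdl, add_comm (1 : ℝ), ← b1]
    rfl
  have key : ∀ᵐ k ∂(muT d), (1 / 4) * (1 - Dh k) ≤ FT a1 k := by
    filter_upwards [hAE d] with k hk
    obtain ⟨c1, -, -, c4⟩ := hSec d (hS d (pH d)) hd0 hhS hhsym k hk
    have c5 := (hSec d (hS d (pH d)) hd0 hhS hhsym 0 (fun i => by simp [Real.pi_pos.le])).2.2.2
    have hD := (hDh d k hd0).1
    have hD1 : 0 ≤ 1 - Dh k := by linarith [(abs_le.1 hD).2]
    have hn0 : nQ (hS d (pH d)) ≤ 1 / 200 := hhn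
    have f0 : |FT (hS d (pH d)) 0| ≤ 1 / 200 := c5.trans hn0
    have f1 : |FT (hS d (pH d)) k| ≤ 1 / 200 := c4.trans hn0
    have f2 : |FT (hS d (pH d)) 0 - FT (hS d (pH d)) k| ≤ (3 / 200) * (1 - Dh k) := by
      refine c1.trans ?_
      nlinarith
    rw [hFa k]
    rw [hFg 0] at hcr
    rw [hFg k]
    set F0 := FT (hS d (pH d)) 0
    set Fk := FT (hS d (pH d)) k
    set D := Dh k
    set q := 2 * (d : ℝ) * pH d
    have hq : q * (1 + F0) = 1 := hcr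
    have hF0 := abs_le.1 f0
    have hFk := abs_le.1 f1
    have hDD := abs_le.1 hD
    have h2 := abs_le.1 f2
    have hq0 : 0 < q := by positivity
    have hq1 : q ≤ 200 / 199 := by
      by_contra hcon
      push Not at hcon
      nlinarith
    -- 1 - q D (1+Fk) = (1-D) + q D (F0-Fk)
    have e1 : 1 - 2 * (d : ℝ) * pH d * D * (1 + Fk) = (1 - D) + q * D * (F0 - Fk) := by
      have : 2 * (d : ℝ) * pH d = q := rfl
      rw [this]
      linear_combination (1 - D) * hq - hq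
    rw [e1]
    have e2 : |q * D * (F0 - Fk)| ≤ (200 / 199) * ((3 / 200) * (1 - D)) := by
      rw [abs_mul, abs_mul, abs_of_pos hq0]
      have : q * |D| ≤ 200 / 199 := by nlinarith [abs_nonneg D]
      exact mul_le_mul this f2 (abs_nonneg _) (by norm_num)
    have e3 := (abs_le.1 e2).1
    nlinarith
  -- comparison
  obtain ⟨i1, j1⟩ := QF_inv hInv sa ea F v
  have sQl : SumQ (lap d) := by
    have b1 := ((hFTadd d (Jf d) (Jf d) hJS hJS k0).2.2.2.2 (-(1 / (2 * (d : ℝ))))).1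
    exact (hFTadd d ImpFM.un _ (ImpFM.sumQ_un d) b1 k0).1
  have el : EvenF (lap d) := fun x => by
    unfold lap
    rw [ImpFM.even_un d x, eJ x]
  obtain ⟨i2, j2⟩ := QF_inv hInv (hFTb d _ sQl k0).1 el F v
  have hFl : ∀ k, FT (lap d) k = 1 - Dh k := by
    intro k
    have b1 := (hFTadd d (Jf d) (Jf d) hJS hJS k).2.2.2.2 (-(1 / (2 * (d : ℝ))))
    have b2 := (hFTadd d ImpFM.un _ (ImpFM.sumQ_un d) b1.1 k).2.1
    have b3 : FT (lap d) k = _ := b2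
    rw [b3, b1.2.1, (hJ k).1, ImpFM.FT_un]
    have hd' : (d : ℝ) ≠ 0 := by positivity
    field_simp
    ring
  have hcmp : (1 / 4) * QF F v (lap d) ≤ QF F v a1 := by
    rw [j1, j2, ← integral_const_mul]
    refine integral_mono_ae (i2.const_mul _) i1 ?_
    filter_upwards [key] with k hk
    rw [hFl k, ← mul_assoc]
    exact mul_le_mul_of_nonneg_right hk (PP_nonneg F v k)
  rw [En_eq hd0 hv, ← hQa]
  refine ENNReal.ofReal_le_ofReal ?_
  have hd' : (0 : ℝ) < d := by positivity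
  nlinarith

end

section
open R3M

theorem hR3at {d : ℕ} {C₁ B c₀ CL : ℝ} (hEv : Pool.CL.EnvC d C₁ B c₀ CL)
    (hFin : StFin) (hGcoef : StGcoef) (hBox : StBox) (hBn : StBn) : SR3at d := by
  classical
  have hd1 : 1 ≤ d := by have := hEv.env.hd; omega
  refine ⟨2 * d, by positivity, fun n _ => ?_⟩
  have hZ := hEv.g3z
  have hE := hEv.g3
  have hp0 : 0 ≤ pH d := Real.sSup_nonneg fun x hx => hx.1
  have hp1 : pH d ≤ 1 := by
    have : pH d ≤ 1 / 2 := Real.sSup_le (fun x hx => hx.2.1) (by norm_num)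
    linarith
  have hE' := hE (ES (Bn d n)) (hBn d n).2.2.1
  have key : ∀ b ∈ Bn d n, (Summable fun x : Zd d =>
      |gT (ES (Bn d n)) (pH d) b x - gS d (pH d) (x - b)|) ∧
      ∑' x : Zd d, |gT (ES (Bn d n)) (pH d) b x - gS d (pH d) (x - b)| ≤
        (1 / 2) * ∑ i : Fin d, (1 / (1 + (b i : ℝ)) ^ 3 +
          1 / (1 + (((n : ℤ) - 1 - b i : ℤ) : ℝ)) ^ 3) := by
    intro b hb
    obtain ⟨R, hR, hR2⟩ := R3M.exists_R hBox hBn hd1 hb
    obtain ⟨h1, h2⟩ := R3M.point hFin hGcoef hBox hBn hp0 hp1 hZ hE' b hR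
    refine ⟨h1, h2.trans ?_⟩
    rw [div_eq_mul_one_div]
    exact mul_le_mul_of_nonneg_left hR2 (by norm_num)
  refine ⟨fun b hb => (key b hb).1, ?_⟩
  refine (Finset.sum_le_sum fun b hb => (key b hb).2).trans ?_
  rw [← Finset.mul_sum, Finset.sum_comm]
  have h3 : ∀ i : Fin d, ∑ b ∈ Bn d n, (1 / (1 + (b i : ℝ)) ^ 3 +
      1 / (1 + (((n : ℤ) - 1 - b i : ℤ) : ℝ)) ^ 3) ≤ 4 * (n : ℝ) ^ (d - 1) := by
    intro i
    rw [Finset.sum_add_distrib]
    rw [R3M.sum_coord d n i (fun j => 1 / (1 + (j : ℝ)) ^ 3),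
      R3M.sum_coord d n i (fun j => 1 / (1 + (((n : ℤ) - 1 - j : ℤ) : ℝ)) ^ 3)]
    have h4 := R3M.sum_cube n
    have h5 := R3M.sum_cube' n
    have h6 : (0 : ℝ) ≤ (n : ℝ) ^ (d - 1) := by positivity
    nlinarith [mul_le_mul_of_nonneg_left h4 h6, mul_le_mul_of_nonneg_left h5 h6]
  calc (1 / 2 : ℝ) * ∑ i : Fin d, ∑ b ∈ Bn d n, (1 / (1 + (b i : ℝ)) ^ 3 +
        1 / (1 + (((n : ℤ) - 1 - b i : ℤ) : ℝ)) ^ 3)
      ≤ (1 / 2 : ℝ) * ∑ _i : Fin d, 4 * (n : ℝ) ^ (d - 1) :=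
        mul_le_mul_of_nonneg_left (Finset.sum_le_sum fun i _ => h3 i) (by norm_num)
    _ = 2 * d * (n : ℝ) ^ (d - 1) := by
        rw [Finset.sum_const, Finset.card_univ, Fintype.card_fin, nsmul_eq_mul]
        ring

end

section
open RgM

theorem hRgat {d : ℕ} {C₁ B c₀ CL : ℝ} (hEv : Pool.CL.EnvC d C₁ B c₀ CL) (hBn : StBn) (hBox : StBox)
    (hFTadd : StFTadd) (hSec : StSec) (hR1 : SR1) (h2' : SR2at d) (h3' : SR3at d) (hR4 : SR4) (h5 : SR5at d) : StRgat d := by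
  have hd1 : 1 ≤ d := by have := hEv.env.hd; omega
  have hdpos : (0 : ℝ) < d := by exact_mod_cast hd1
  have hp0 := hEv.env.p0
  have hp1 : pH d ≤ 1 := by have := hEv.env.p1; linarith
  obtain ⟨hge, hgs, hg2⟩ := g_factsE hEv
  obtain ⟨C₃, hC3, h3'⟩ := h3'
  have hpd' : pH d * d ≤ 1 := by
    have hcr := hEv.crit
    have h199 : (199 / 200 : ℝ) ≤ FT (gS d (pH d)) 0 := by
      have b1 := (hFTadd d (hS d (pH d)) ImpFM.un hEv.hsum (ImpFM.sumQ_un d) 0).2.1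
      rw [ImpFM.FT_un] at b1
      have c5 := (hSec d (hS d (pH d)) (by omega) hEv.hsum hEv.hsym 0
        (fun i => by simp [Real.pi_pos.le])).2.2.2
      have hn0 := abs_le.1 (c5.trans hEv.hle)
      have : FT (gS d (pH d)) 0 = FT (hS d (pH d)) 0 + 1 := by
        rw [hEv.gdl, ← b1]
        rfl
      rw [this]
      linarith [hn0.1]
    have hpd0 : 0 ≤ pH d * d := by positivity
    nlinarith
  refine ⟨64 * d + 3232 * d * C₃, by positivity, ?_⟩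
  intro n hn ψ W c a hψ hW hu z
  obtain ⟨hFG, -, -, hmem, -⟩ := hBn d n
  obtain ⟨hS, hM⟩ := h3' n hn
  obtain ⟨hG0, H, hH1, -, -, hvex⟩ := h5 n hn
  have h0L : (0 : Zd d) ∈ Bn d n := by
    rw [hmem]
    intro i
    have hn' : (0 : ℤ) < (n : ℤ) := by exact_mod_cast hn
    exact ⟨le_rfl, hn'⟩
  have ha : 0 ≤ a := (abs_nonneg _).trans (hu 0 h0L)
  have hc : 0 ≤ c := (hW ∅).1.trans (hW ∅).2
  have hu0 : ∀ x, 0 ≤ uW (ES (Bn d n)) (pH d) (Bn d n) W ψ x :=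
    uW_nonneg hp0.le (by linarith) (fun S => (hW S).1) (fun x => (hψ x).1)
  have hX := hR1 (Zd d) (Bn d n) (ES (Bn d n)) (2 * d) (pH d) hFG hp0.le (by linarith) W ψ c H hW hH1
  set u : Zd d → ℝ := uW (ES (Bn d n)) (pH d) (Bn d n) W ψ with hudef
  set L : Finset (Zd d) := Bn d n with hL
  obtain ⟨v, hv0, hva, hvu, hvH⟩ := hvex u a hu
  obtain ⟨s1, t1⟩ := delta_sum (u := u) hge hv0 hva ha hG0 hvu hS hM
  have hN : (0 : ℝ) ≤ (n : ℝ) ^ (d - 1) := by positivity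
  set D : ℝ := 4 * a * (C₃ * (n : ℝ) ^ (d - 1)) with hDdef
  have hD0 : 0 ≤ D := by positivity
  have hFSv : FS v := ⟨L, hv0⟩
  obtain ⟨scv, hEn⟩ := h2' v hFSv
  have hcv4 := fun x => cv_bd (v := v) hgs hg2 hv0 hva ha x
  have hua : ∀ x, |ext L u x| ≤ a := by
    intro x
    unfold ext
    split_ifs with hx
    · exact hu x hx
    · rw [abs_zero]
      exact ha
  have su : Summable fun x => |ext L u x| := by
    refine summable_of_ne_finset_zero (s := L) fun x hx => ?_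
    unfold ext
    rw [if_neg hx, abs_zero]
  have h55 : ∀ x, |ext L u x - cv (gS d (pH d)) v x| ≤ 5 * a := by
    intro x
    have i1 := hua x
    have i2 := hcv4 x
    rw [abs_le] at i1 i2 ⊢
    constructor <;> linarith [i1.1, i1.2, i2.1, i2.2]
  set Q : ℝ := c * ∑ x ∈ L, ψ x * u x with hQdef
  have hQ : 0 ≤ Q :=
    mul_nonneg hc (Finset.sum_nonneg fun x _ => mul_nonneg (hψ x).1 (hu0 x))
  have hAf := form_cmp (v := v) hBox ha hp0.le hpd' hva hua hcv4 su scv s1 t1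
  rw [Af_ext hvH] at hAf
  have hEn' : En v ≤ ENNReal.ofReal (8 * d * (Q + 12 * a * D)) := by
    refine hEn.trans (ENNReal.ofReal_le_ofReal (mul_le_mul_of_nonneg_left ?_ (by positivity)))
    exact hAf.trans (by linarith)
  have hEnu : En (ext L u) ≤ ENNReal.ofReal (64 * d * Q + 808 * d * a * D) :=
    En_add_bd hR4 ha hD0 hQ hgs hg2 hFSv rfl hEn' h55 s1 t1
  -- the final sum
  obtain ⟨-, -, -, r4⟩ := hR4 d
  have hfin := (r4 (ext L u) z).trans (mul_le_mul' le_rfl hEnu)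
  rw [← ENNReal.ofReal_mul (by positivity)] at hfin
  have hK : 0 ≤ (∑ i, |(z i : ℝ)|) ^ 2 * (64 * d * Q + 808 * d * a * D) := by positivity
  have hle : ENNReal.ofReal (∑ x ∈ L, (ext L u (x + z) - ext L u x) ^ 2) ≤
      ENNReal.ofReal ((∑ i, |(z i : ℝ)|) ^ 2 * (64 * d * Q + 808 * d * a * D)) := by
    refine le_trans ?_ hfin
    rw [ENNReal.ofReal_sum_of_nonneg (fun x _ => sq_nonneg _)]
    exact ENNReal.sum_le_tsum L
  rw [ENNReal.ofReal_le_ofReal_iff hK] at hle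
  have hlhs : ∑ x ∈ L, (if x + z ∈ L then (u (x + z) - u x) ^ 2 else 0) ≤
      ∑ x ∈ L, (ext L u (x + z) - ext L u x) ^ 2 := by
    refine Finset.sum_le_sum fun x hx => ?_
    split_ifs with hxz
    · unfold ext
      rw [if_pos hx, if_pos hxz]
    · exact sq_nonneg _
  refine hlhs.trans (hle.trans ?_)
  have hz : 0 ≤ (∑ i, |(z i : ℝ)|) ^ 2 := sq_nonneg _
  calc (∑ i, |(z i : ℝ)|) ^ 2 * (64 * d * Q + 808 * d * a * D)
      ≤ (∑ i, |(z i : ℝ)|) ^ 2 *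
          ((64 * d + 3232 * d * C₃) * (Q + a ^ 2 * (n : ℝ) ^ (d - 1))) := by
        refine mul_le_mul_of_nonneg_left ?_ hz
        have e : (64 * d + 3232 * d * C₃) * (Q + a ^ 2 * (n : ℝ) ^ (d - 1)) -
            (64 * d * Q + 808 * d * a * D) =
            3232 * d * C₃ * Q + 64 * d * (a ^ 2 * (n : ℝ) ^ (d - 1)) := by
          rw [hDdef]
          ring
        have e2 : 0 ≤ 3232 * d * C₃ * Q + 64 * d * (a ^ 2 * (n : ℝ) ^ (d - 1)) := by positivity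
        linarith
    _ = (64 * d + 3232 * d * C₃) * (∑ i, |(z i : ℝ)|) ^ 2 *
          (Q + a ^ 2 * (n : ℝ) ^ (d - 1)) := by ring

end


/-- the form used by project CL -/
theorem hReg (hBn : StBn) (hBox : StBox) (hFTb : StFTb) (hFTadd : StFTadd) (hCv : StCv)
    (hCvFT : StCvFT) (hJf : StJf) (hInv : StInv) (hSec : StSec) (hDh : StDh) (hAE : StAE)
    (hFin : StFin) (hGcoef : StGcoef) (hR1 : SR1) (hR4 : SR4)
    (hR5 : ∀ (d : ℕ) (C₁ B c₀ CL : ℝ), Pool.CL.EnvC d C₁ B c₀ CL → SR5at d) : Pool.CL.StReg := by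
  intro d C₁ B c₀ CL hE
  have h2 : SR2at d := hR2at hE hFTb hFTadd hCv hCvFT hJf hInv hSec hDh hAE
  have h3 : SR3at d := hR3at hE hFin hGcoef hBox hBn
  obtain ⟨C, hC, H⟩ := hRgat hE hBn hBox hFTadd hSec hR1 h2 h3 hR4 (hR5 d C₁ B c₀ CL hE)
  have hd : (0 : ℝ) < d := by
    have : 0 < d := by have := hE.env.hd; omega
    exact_mod_cast this
  refine ⟨C * (d : ℝ) ^ 2, by positivity, ?_⟩
  intro n ψ w u c a hn hψ hc ha hw hu hua z
  have hux : ∀ x ∈ Bn d n, u x = uW (ES (Bn d n)) (pH d) (Bn d n) w ψ x := hu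
  have hcl : ∀ x ∈ Bn d n, |uW (ES (Bn d n)) (pH d) (Bn d n) w ψ x| ≤ a := fun x hx => by
    rw [← hux x hx]; exact hua x hx
  have key := H n hn ψ w c a hψ hw hcl z
  have e1 : ∑ x ∈ Bn d n, ind (x + z ∈ Bn d n) * (u (x + z) - u x) ^ 2 =
      ∑ x ∈ Bn d n, (if x + z ∈ Bn d n then
      (uW (ES (Bn d n)) (pH d) (Bn d n) w ψ (x + z) - uW (ES (Bn d n)) (pH d) (Bn d n) w ψ x) ^ 2
      else 0) := by
    refine Finset.sum_congr rfl fun x hx => ?_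
    unfold ind
    split_ifs with h
    · rw [hux x hx, hux _ h, one_mul]
    · rw [zero_mul]
  have e2 : ∑ x ∈ Bn d n, ψ x * u x =
      ∑ x ∈ Bn d n, ψ x * uW (ES (Bn d n)) (pH d) (Bn d n) w ψ x :=
    Finset.sum_congr rfl fun x hx => by rw [hux x hx]
  rw [e1, e2]
  refine key.trans ?_
  have hz : (∑ i, |(z i : ℝ)|) ≤ d * (1 + (Pool.CL.nrm z : ℝ)) := by
    calc (∑ i, |(z i : ℝ)|) ≤ ∑ _i : Fin d, (1 + (Pool.CL.nrm z : ℝ)) := by
          refine Finset.sum_le_sum fun i _ => ?_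
          have h1 : (z i).natAbs ≤ Pool.CL.nrm z :=
            Finset.le_sup (f := fun i => (z i).natAbs) (Finset.mem_univ i)
          have h2 : |(z i : ℝ)| = ((z i).natAbs : ℝ) := by
            rw [← Int.cast_abs, Int.abs_eq_natAbs]
            simp
          rw [h2]
          have : ((z i).natAbs : ℝ) ≤ (Pool.CL.nrm z : ℝ) := by exact_mod_cast h1
          linarith
      _ = d * (1 + (Pool.CL.nrm z : ℝ)) := by
          rw [Finset.sum_const, Finset.card_univ, Fintype.card_fin, nsmul_eq_mul]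
  have hz0 : 0 ≤ ∑ i, |(z i : ℝ)| := Finset.sum_nonneg fun i _ => abs_nonneg _
  have hR : 0 ≤ c * ∑ x ∈ Bn d n, ψ x * uW (ES (Bn d n)) (pH d) (Bn d n) w ψ x +
      a ^ 2 * (n : ℝ) ^ (d - 1) := by
    have : 0 ≤ ∑ x ∈ Bn d n, ψ x * uW (ES (Bn d n)) (pH d) (Bn d n) w ψ x :=
      Finset.sum_nonneg fun x _ => mul_nonneg (hψ x).1
        (RgM.uW_nonneg hE.env.p0.le (by have := hE.env.p1; linarith) (fun S => (hw S).1)
          (fun y => (hψ y).1) x)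
    positivity
  have hsq : (∑ i, |(z i : ℝ)|) ^ 2 ≤ (d : ℝ) ^ 2 * (1 + (Pool.CL.nrm z : ℝ)) ^ 2 := by
    rw [← mul_pow]
    exact pow_le_pow_left₀ hz0 hz 2
  refine mul_le_mul_of_nonneg_right ?_ hR
  calc C * (∑ i, |(z i : ℝ)|) ^ 2 ≤ C * ((d : ℝ) ^ 2 * (1 + (Pool.CL.nrm z : ℝ)) ^ 2) :=
        mul_le_mul_of_nonneg_left hsq hC.le
    _ = C * (d : ℝ) ^ 2 * (1 + (Pool.CL.nrm z : ℝ)) ^ 2 := by ring

end Pool.RG
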