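import Pool.Agent.Helper69.RG.Bridge
import Pool.Agent.Helper73.RG.M_R1
import Pool.Agent.Helper2.RG.M_R4
import Pool.Agent.Helper2.RG.M_R5at
import Pool.Agent.Helper84.LE.All
import Pool.Agent.Helper22.NL.M_CoefU
import Pool.Agent.Helper22.NL.M_Fin
import Pool.Agent.Helper22.NL.M_Bn
import Pool.Agent.Helper22.NL.M_Basic
import Pool.Agent.Helper22.NL.M_Clu
import Pool.Agent.Helper22.NL.M_Hh

/-! # Project RG (MP_65faa7): assembly of the energy regularity -/

set_option autoImplicit false

open Pool.LE Pool.NL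

namespace Pool.RG

/-- energy regularity in the box, without hypotheses -/
theorem allReg : Pool.CL.StReg := by
  have hCoef : StCoef := LE.allCoef
  have hBox : StBox := LE.hBox
  have hW := LE.hWalkBox hBox
  have hT := LE.hTransl
  have hCLc := LE.hCoefLoc (LE.hCoefLoc0 hW) hT
  have hGE := LE.hGmEq
  have hSupp : StSupp := LE.hSupp hW hBox
  have hGcoef : StGcoef := LE.hGcoef hCoef hCLc hGE hSupp hBox
  have hQw : StQw := LE.hQw
  have hNuProb : StNuProb := LE.hNuProb
  have hDh : StDh := LE.hDh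
  have hFTb := LE.hFTb
  have hFTadd := LE.hFTadd
  have hCv := LE.hCv hQw
  have hCvFT := LE.hCvFT hCv hFTb
  have hJf := LE.hJf hBox
  have hInv : StInv := LE.hInv hNuProb
  have hIso := LE.hIso
  have hSec := LE.hSec hIso hDh hFTb
  have hAE : StAE := LE.hAE
  have hCoefU : StCoefU := Pool.NL.hCoefU hCoef
  have hFin : StFin := Pool.NL.hFin hCoef hCoefU
  have hBn : StBn := Pool.NL.hBn hBox
  have hHh : StHh := Pool.NL.hHh Pool.NL.hBasic Pool.NL.hClu
  exact hReg hBn hBox hFTb hFTadd hCv hCvFT hJf hInv hSec hDh hAE hFin hGcoef hR1 hR4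
    (hR5at hFin hHh hBn hBox)

end Pool.RG
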