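import Pool.Agent.Helper22.NL.StT
import Pool.Agent.Helper84.LE.St3

/-!
# Project RG (MP_65faa7): energy regularity, definitions and statements
Plan: /team-store/MP_65faa7-v2.md, section Rg, and /team-store/MP_65faa7-RG-plan.md.
-/

set_option autoImplicit false

open scoped BigOperators ENNReal
open Pool.LE Pool.NL

namespace Pool.RG

/-- extension by zero -/
noncomputable def ext {d : ℕ} (L : Finset (Zd d)) (u : Zd d → ℝ) (x : Zd d) : ℝ :=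
  if x ∈ L then u x else 0

/-- Dirichlet energy -/
noncomputable def En {d : ℕ} (w : Zd d → ℝ) : ENNReal :=
  ∑' x : Zd d, ∑ i : Fin d, ENNReal.ofReal ((w (x + Pi.single i (1 : ℤ)) - w x) ^ 2)

/-- finite support -/
def FS {d : ℕ} (w : Zd d → ℝ) : Prop := ∃ F : Finset (Zd d), ∀ x, x ∉ F → w x = 0

/-- expectation of `W(C_x) ψ(C_x)` -/
noncomputable def uW {V : Type} [DecidableEq V] (E : Finset (Sym2 V)) (p : ℝ) (L : Finset V)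
    (W : Finset V → ℝ) (ψ : V → ℝ) (x : V) : ℝ :=
  ex E p (fun ω => W (clu L ω x) * ∑ y ∈ clu L ω x, ψ y)

/-- R1: comparison of quadratic forms and Cauchy-Schwarz -/
def SR1 : Prop := ∀ (V : Type) [DecidableEq V] (L : Finset V) (E : Finset (Sym2 V)) (D : ℕ) (p : ℝ),
  FG L E D → 0 ≤ p → p ≤ 1 → ∀ (W : Finset V → ℝ) (ψ : V → ℝ) (c : ℝ) (H : V → V → ℝ),
  (∀ S, 0 ≤ W S ∧ W S ≤ c) →
  (∀ u ∈ L, ∀ v ∈ L, ∑ z ∈ L, cp E p u z * H z v = if u = v then 1 else 0) →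
    ∑ x ∈ L, ∑ y ∈ L, uW E p L W ψ x * H x y * uW E p L W ψ y ≤ c * ∑ x ∈ L, ψ x * uW E p L W ψ x

/-- R2: lower bound for the bulk quadratic form -/
def SR2 : Prop := ∃ d₁ : ℕ, 1 ≤ d₁ ∧ ∀ d : ℕ, d₁ ≤ d → ∀ v : Zd d → ℝ, FS v →
  Summable (fun x => |cv (gS d (pH d)) v x|) ∧
  En v ≤ ENNReal.ofReal (8 * d * (∑' x : Zd d, v x * cv (gS d (pH d)) v x -
    pH d * ∑' x : Zd d, ∑ y ∈ nb x, cv (gS d (pH d)) v x * cv (gS d (pH d)) v y))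

/-- R3: the coefficients of the box are close to those of the lattice -/
def SR3 : Prop := ∃ d₁ : ℕ, 1 ≤ d₁ ∧ ∀ d : ℕ, d₁ ≤ d → ∃ C : ℝ, 0 < C ∧ ∀ n : ℕ, 1 ≤ n →
  (∀ b ∈ Bn d n, Summable fun x : Zd d => |gT (ES (Bn d n)) (pH d) b x - gS d (pH d) (x - b)|) ∧
  ∑ b ∈ Bn d n, ∑' x : Zd d, |gT (ES (Bn d n)) (pH d) b x - gS d (pH d) (x - b)| ≤ C * (n : ℝ) ^ (d - 1)

/-- R4: calculus of the energy -/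
def SR4 : Prop := ∀ d : ℕ,
  (∀ w₁ w₂ : Zd d → ℝ, En (fun x => w₁ x + w₂ x) ≤ 2 * En w₁ + 2 * En w₂) ∧
  (∀ w : Zd d → ℝ, En w ≤ 4 * d * ∑' x : Zd d, ENNReal.ofReal (w x ^ 2)) ∧
  (∀ (f v : Zd d → ℝ) (a : ℝ), Summable (fun x => |f x|) → ∑' x : Zd d, |f x| ≤ a → FS v →
    En (cv f v) ≤ ENNReal.ofReal (a ^ 2) * En v) ∧
  (∀ (w : Zd d → ℝ) (z : Zd d), ∑' x : Zd d, ENNReal.ofReal ((w (x + z) - w x) ^ 2) ≤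
    ENNReal.ofReal ((∑ i, |(z i : ℝ)|) ^ 2) * En w)

/-- R5: the inverse of the two-point matrix of the box -/
def SR5 : Prop := ∃ d₁ : ℕ, 1 ≤ d₁ ∧ ∀ d : ℕ, d₁ ≤ d → ∀ n : ℕ, 1 ≤ n →
  (∀ x y : Zd d, x ∈ Bn d n → y ∉ Bn d n → gT (ES (Bn d n)) (pH d) x y = 0) ∧
  ∃ H : Zd d → Zd d → ℝ,
    (∀ u ∈ Bn d n, ∀ v ∈ Bn d n,
      ∑ z ∈ Bn d n, cp (ES (Bn d n)) (pH d) u z * H z v = if u = v then 1 else 0) ∧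
    (∀ u ∈ Bn d n, ∀ v ∈ Bn d n,
      ∑ z ∈ Bn d n, H u z * cp (ES (Bn d n)) (pH d) z v = if u = v then 1 else 0) ∧
    (∀ u ∈ Bn d n, ∀ v ∈ Bn d n, H u v = H v u) ∧
    ∀ (u : Zd d → ℝ) (a : ℝ), (∀ x ∈ Bn d n, |u x| ≤ a) → ∃ v : Zd d → ℝ,
      (∀ x, x ∉ Bn d n → v x = 0) ∧ (∀ x, |v x| ≤ 2 * a) ∧
      (∀ x ∈ Bn d n, u x = ∑ y ∈ Bn d n, gT (ES (Bn d n)) (pH d) x y * v y) ∧
      (∀ x ∈ Bn d n, ∑ y ∈ Bn d n, H x y * u y = v x - pH d * ∑ y ∈ nb x, ext (Bn d n) u y)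

/-- Rg: the final statement -/
def StRg : Prop := ∃ d₁ : ℕ, 1 ≤ d₁ ∧ ∀ d : ℕ, d₁ ≤ d → ∃ C : ℝ, 0 < C ∧ ∀ n : ℕ, 1 ≤ n →
  ∀ (ψ : Zd d → ℝ) (W : Finset (Zd d) → ℝ) (c a : ℝ), (∀ x, 0 ≤ ψ x ∧ ψ x ≤ 1) →
  (∀ S, 0 ≤ W S ∧ W S ≤ c) →
  (∀ x ∈ Bn d n, |uW (ES (Bn d n)) (pH d) (Bn d n) W ψ x| ≤ a) → ∀ z : Zd d,
    ∑ x ∈ Bn d n, (if x + z ∈ Bn d n then
      (uW (ES (Bn d n)) (pH d) (Bn d n) W ψ (x + z) - uW (ES (Bn d n)) (pH d) (Bn d n) W ψ x) ^ 2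
      else 0) ≤
    C * (∑ i, |(z i : ℝ)|) ^ 2 *
      (c * ∑ x ∈ Bn d n, ψ x * uW (ES (Bn d n)) (pH d) (Bn d n) W ψ x + a ^ 2 * (n : ℝ) ^ (d - 1))

end Pool.RG
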